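import Pool.Agent.Helper33.DZ.Stmts

open Complex

namespace Pool.Agent.Helper33.DZ

theorem coc_im_inv (z : ℂ) (hz : 0 < z.im) : 0 < (-1 / z).im := by
  have hz0 : z ≠ 0 := by
    rintro rfl
    simp at hz
  have h : (-1 / z).im = z.im / Complex.normSq z := by
    rw [neg_div, one_div, Complex.neg_im, Complex.inv_im]
    ring
  rw [h]
  exact div_pos hz (Complex.normSq_pos.mpr hz0)

theorem coc_R (w : ℕ) (g : ℂ → ℂ) (hc : Cusp (w + 2) g) (E : ℂ → ℂ → ℂ)
    (h1 : ∀ z X : ℂ, 0 < z.im → HasDerivAt (fun z => E z X)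
      (g (Complex.exp (2 * Real.pi * I * z)) * (X - z) ^ w) z)
    (h3 : ∀ X : ℂ, E I X = -I * JJ w g X) (X : ℂ) (hX : X ≠ 0) (z : ℂ) (hz : 0 < z.im) :
    RR w g X = E z X - X ^ w * E (-1 / z) (-1 / X) := by
  have hopen : IsOpen {z : ℂ | 0 < z.im} := isOpen_lt continuous_const Complex.continuous_im
  have hconv : Convex ℝ {z : ℂ | 0 < z.im} := convex_halfSpace_im_gt 0
  have hder : ∀ z : ℂ, 0 < z.im →
      HasDerivAt (fun z => E z X - X ^ w * E (-1 / z) (-1 / X)) 0 z := by
    intro z hz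
    have hz0 : z ≠ 0 := by
      rintro rfl
      simp at hz
    have ha := h1 z X hz
    have hb := h1 (-1 / z) (-1 / X) (coc_im_inv z hz)
    have hinv : HasDerivAt (fun z : ℂ => -1 / z) (1 / z ^ 2) z := by
      have := (hasDerivAt_inv hz0).neg
      have h2 : (fun z : ℂ => -1 / z) = fun z : ℂ => -z⁻¹ := by
        funext y
        rw [neg_div, one_div]
      rw [h2]
      have h4 : (1 / z ^ 2 : ℂ) = - -(z ^ 2)⁻¹ := by
        rw [neg_neg, one_div]
      rw [h4]
      exact this
    have hcomp := HasDerivAt.comp z hb hinv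
    have hd := ha.sub (hcomp.const_mul (X ^ w))
    have hval : g (Complex.exp (2 * Real.pi * I * z)) * (X - z) ^ w -
        X ^ w * (g (Complex.exp (2 * Real.pi * I * (-1 / z))) * (-1 / X - -1 / z) ^ w *
          (1 / z ^ 2)) = 0 := by
      rw [hc.inv z hz]
      have h5 : (X - z) ^ w = X ^ w * (z ^ w * (-1 / X - -1 / z) ^ w) := by
        rw [← mul_pow, ← mul_pow]
        congr 1
        field_simp
        ring
      rw [h5, pow_add]
      field_simp
      ring
    rw [hval] at hd
    exact hd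
  have hconst : ∀ y ∈ {z : ℂ | 0 < z.im},
      E y X - X ^ w * E (-1 / y) (-1 / X) = E I X - X ^ w * E (-1 / I) (-1 / X) := by
    intro y hy
    have hI : I ∈ {z : ℂ | 0 < z.im} := by
      simp
    exact hconv.is_const_of_fderivWithin_eq_zero (𝕜 := ℂ)
      (f := fun z => E z X - X ^ w * E (-1 / z) (-1 / X))
      (fun z hz => (hder z hz).differentiableAt.differentiableWithinAt)
      (fun z hz => by
        have h6 := (hder z hz).hasFDerivAt.hasFDerivWithinAt (s := {z : ℂ | 0 < z.im})
        rw [h6.fderivWithin (hopen.uniqueDiffWithinAt hz)]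
        ext
        simp) hy hI
  rw [hconst z hz]
  have hII : (-1 / I : ℂ) = I := by
    rw [div_eq_iff Complex.I_ne_zero, Complex.I_mul_I]
  rw [hII, h3, h3, RR]
  ring

theorem st_COC (hE : ST_EICH) : ST_COC := by
  intro w g hw hc
  obtain ⟨E, h1, h2, h3⟩ := hE w g hc.diff hc.zero
  refine ⟨?_, ?_⟩
  · intro X hX
    have hXX : (-1 / (-1 / X) : ℂ) = X := by
      field_simp
    have hp : X ^ w * (-1 / X) ^ w = 1 := by
      rw [← mul_pow]
      have : X * (-1 / X) = -1 := by
        field_simp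
      rw [this, hw.neg_one_pow]
    unfold RR
    rw [hXX]
    linear_combination (I * JJ w g X) * hp
  · intro X hX hX1
    have hI : (0 : ℝ) < (I : ℂ).im := by simp
    have hI0 : (I : ℂ) ≠ 0 := Complex.I_ne_zero
    have hI1 : (0 : ℝ) < (I + 1 : ℂ).im := by simp
    have hI10 : (I + 1 : ℂ) ≠ 0 := by
      intro h
      rw [h] at hI1
      simp at hI1
    have e1 := coc_R w g hc E h1 h3 X hX I hI
    have e2 := coc_R w g hc E h1 h3 (X + 1) hX1 (I + 1) hI1
    have hz' : (-1 / (I + 1) + 1 : ℂ) = I / (I + 1) := by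
      field_simp
      ring
    have hz'im : 0 < (I / (I + 1) : ℂ).im := by
      rw [← hz']
      have := coc_im_inv (I + 1) hI1
      simpa using this
    have hY0 : X / (X + 1) ≠ 0 := div_ne_zero hX hX1
    have e3 := coc_R w g hc E h1 h3 (X / (X + 1)) hY0 (I / (I + 1)) hz'im
    have hY : (-1 / (X + 1) + 1 : ℂ) = X / (X + 1) := by
      field_simp
      ring
    have p1 : E (I / (I + 1)) (X / (X + 1)) = E (-1 / (I + 1)) (-1 / (X + 1)) := by
      rw [← hz', ← hY]
      exact h2 _ _ (coc_im_inv (I + 1) hI1)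
    have q1 : (-1 / (I / (I + 1)) + 1 : ℂ) = -1 / I := by
      field_simp
      ring
    have q2 : (-1 / (X / (X + 1)) + 1 : ℂ) = -1 / X := by
      field_simp
      ring
    have p2 : E (-1 / (I / (I + 1))) (-1 / (X / (X + 1))) = E (-1 / I) (-1 / X) := by
      rw [← q1, ← q2]
      exact (h2 _ _ (coc_im_inv _ hz'im)).symm
    have p3 : E (I + 1) (X + 1) = E I X := h2 _ _ hI
    rw [p1, p2] at e3
    rw [p3] at e2
    have hp : (X + 1) ^ w * (X / (X + 1)) ^ w = X ^ w := by
      rw [← mul_pow]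
      congr 1
      field_simp
    rw [e1, e2, e3]
    linear_combination (E (-1 / I) (-1 / X)) * hp

end Pool.Agent.Helper33.DZ
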